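import Pool.Agent.helper885_ct.Final

/-!
The uniqueness threshold lies strictly above the critical value when `α ≥ 3/5`, that is, when the
mean offspring number is at least `3/2`.
-/

namespace Pool.Agent.Results.MP_a51368_pr.StrictThreeFifths

open MeasureTheory Set Pool.Agent.helper885_ct

/-- For every `α ∈ [3/5, 1)` there is `pu` with `pch α < pu < 1`, almost sure uniqueness
above `pu` and no almost sure uniqueness between `pch α` and `pu`. -/
theorem result (α : ℝ) (h1 : 3 / 5 ≤ α) (h2 : α < 1) :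
    ∃ pu : ℝ, pch α < pu ∧ pu < 1 ∧
      (∀ p, pu < p → p < 1 → annLaw α {ω | numInf p ω = 1} = 1) ∧
      (∀ p, pch α < p → p < pu → annLaw α {ω | numInf p ω = 1} < 1) := by
  have h0 : 1 / 2 < α := by linarith
  have : Fact (0 < α ∧ α < 1) := ⟨by linarith, h2⟩
  obtain ⟨pu, g1, g2, g3, g4, g5⟩ := threshold (α := α) h0
  obtain ⟨p, e1, e2, e3⟩ := not_one_three_fifths (α := α) h1
  exact ⟨pu, lt_of_lt_of_le e1 (g5 p e1 e2 e3), g2, g3, g4⟩

end Pool.Agent.Results.MP_a51368_pr.StrictThreeFifths
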