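import Pool.Agent.helper885_ct.Main

/-!
Existence and structure of the uniqueness threshold, for every `α ∈ (1/2, 1)`.
-/

namespace Pool.Agent.Results.MP_a51368_pr.Threshold

open MeasureTheory Set Pool.Agent.helper885_ct

/-- For every `α ∈ (1/2, 1)` there is a uniqueness threshold `pu` with `pch α ≤ pu < 1`. -/
theorem result (α : ℝ) (h1 : 1 / 2 < α) (h2 : α < 1) :
    ∃ pu : ℝ, pch α ≤ pu ∧ pu < 1 ∧
      (∀ p, pu < p → p < 1 → annLaw α {ω | numInf p ω = 1} = 1) ∧
      (∀ p, pch α < p → p < pu → annLaw α {ω | numInf p ω = 1} < 1) := by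
  have : Fact (0 < α ∧ α < 1) := ⟨by linarith, h2⟩
  obtain ⟨pu, g1, g2, g3, g4, _⟩ := threshold (α := α) h1
  exact ⟨pu, g1, g2, g3, g4⟩

end Pool.Agent.Results.MP_a51368_pr.Threshold
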